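import Pool.Agent.helper47.CL.SpecD

/-!
Row BF of project CL (part D, MP_d9d598_co), further proof.
-/

set_option autoImplicit false

namespace Pool.Agent.helper41.CL

open Finset

theorem BFy_mi {α : Type} [DecidableEq α] {E : Finset (Finset α)} {p : α} {e : Finset α} : e ∈ inc E p ↔ e ∈ E ∧ p ∈ e := by
  unfold inc
  exact Finset.mem_filter

theorem BFy_ma {α : Type} [DecidableEq α] {E : Finset (Finset α)} {S : Finset α} {e : Finset α} : e ∈ av E S ↔ e ∈ E ∧ Disjoint e S := by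
  unfold av
  exact Finset.mem_filter

theorem BFy_pair {α : Type} [DecidableEq α] {V : Finset α} {E : Finset (Finset α)} (hG : Gr V E) {e : Finset α} (he : e ∈ E)
    {p : α} (hp : p ∈ e) : ∃ a, p ≠ a ∧ e = {p, a} := by
  obtain ⟨x, y, hxy, rfl⟩ := Finset.card_eq_two.mp (hG e he).2
  rw [Finset.mem_insert, Finset.mem_singleton] at hp
  rcases hp with rfl | rfl
  · exact ⟨y, hxy, rfl⟩
  · exact ⟨x, hxy.symm, Finset.pair_comm _ _⟩

theorem BFy_one {α : Type} [DecidableEq α] {E : Finset (Finset α)} {x y z : α} (h : Kt E x y) (hz : z = x ∨ z = y) :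
    #(inc E z) ≤ 1 := by
  rw [Finset.card_le_one]
  intro e he f hf
  rw [BFy_mi] at he hf
  rcases hz with rfl | rfl
  · rw [h.2.2 e he.1 (Or.inl he.2), h.2.2 f hf.1 (Or.inl hf.2)]
  · rw [h.2.2 e he.1 (Or.inr he.2), h.2.2 f hf.1 (Or.inr hf.2)]

/-- The vertex of degree at least four. -/
theorem BFy_four (h2 : ZK_stmt) (h3 : ZP_stmt) {N : ℕ} (hA : SA N) (hC : SC N) {α : Type} [DecidableEq α] {V : Finset α}
    {E : Finset (Finset α)} {q : ℕ} (hG : Gr V E) (hV : #V = 3 * q + 1) (hN : #V ≤ N + 1) (hE : #E = 3 * q) {x y p : α}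
    (hK : Kt E x y) (hp : 4 ≤ #(inc E p)) : 3 ^ q ≤ #(ind V E (q + 1)) := by
  have hle : #(inc E p) ≤ #E := Finset.card_le_card (Finset.filter_subset _ _)
  obtain ⟨t, rfl⟩ : ∃ t, q = t + 2 := ⟨q - 2, by omega⟩
  have hpV : p ∈ V := by
    obtain ⟨e, he⟩ := Finset.card_pos.mp (show 0 < #(inc E p) by omega)
    rw [BFy_mi] at he
    exact (hG e he.1).1 he.2
  obtain ⟨a1, a2, a3, a4⟩ := h3 α V E p hG hpV
  have hpx : p ≠ x := by
    rintro rfl
    have := BFy_one hK (z := p) (Or.inl rfl)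
    omega
  have hpy : p ≠ y := by
    rintro rfl
    have := BFy_one hK (z := p) (Or.inr rfl)
    omega
  have hK1 : Kt (av E {p}) x y := by
    refine ⟨hK.1, ?_, ?_⟩
    · rw [BFy_ma, Finset.disjoint_singleton_right]
      refine ⟨hK.2.1, ?_⟩
      rw [Finset.mem_insert, Finset.mem_singleton]
      rintro (h | h)
      · exact hpx h
      · exact hpy h
    · intro e he hxy
      rw [BFy_ma] at he
      exact hK.2.2 e he.1 hxy
  obtain ⟨b1, b2, b3, b4⟩ := h2 α (V.erase p) (av E {p}) x y a1 hK1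
  have i1 := hC α (V.erase p \ {x, y}) (av (av E {p}) {x, y}) (t + 1) (t + 2) b1 (by omega) (by omega) (by omega) (by omega)
  have i2 := hA α (V.erase p \ {x, y}) (av (av E {p}) {x, y}) (t + 2) t b1 (by omega) (by omega) (by omega) (by omega)
  have i3 := (b4 (t + 2)).trans (a4 (t + 2 + 1))
  have hpos : 0 < 2 ^ t := by positivity
  have j1 : 4 * 3 ^ (t + 2) ≤ 9 * #(ind (V.erase p \ {x, y}) (av (av E {p}) {x, y}) (t + 2)) := by
    apply Nat.le_of_mul_le_mul_left _ (show 0 < 4 * 2 ^ t by positivity)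
    calc 4 * 2 ^ t * (4 * 3 ^ (t + 2)) = 8 * 3 ^ (t + 2) * 2 ^ (t + 1) := by ring
      _ ≤ _ := i1
      _ = _ := by ring
  have j2 : 4 * 3 ^ t ≤ 3 * #(ind (V.erase p \ {x, y}) (av (av E {p}) {x, y}) (t + 2 + 1)) := by
    apply Nat.le_of_mul_le_mul_left _ hpos
    calc 2 ^ t * (4 * 3 ^ t) = 3 ^ t * 2 ^ (t + 2) := by ring
      _ ≤ _ := i2
      _ = _ := by ring
  have e1 : 3 ^ (t + 2) = 9 * 3 ^ t := by ring
  rw [e1] at j1 ⊢
  omega

/-- At least six members of `E` meet `S` if `S` has four elements of degree at least three. -/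
theorem BFy_six (h4 : SD_stmt) {α : Type} [DecidableEq α] {V : Finset α} {E : Finset (Finset α)} (hG : Gr V E) {S : Finset α}
    (hS : S ⊆ V) (h4S : #S = 4) (hd : ∀ x ∈ S, 3 ≤ #(inc E x)) : #(av E S) + 6 ≤ #E := by
  have hM : Gr V (E.filter fun e => ¬ Disjoint e S) := fun e he => hG e (Finset.mem_filter.mp he).1
  have hs := h4 α V _ hM
  have h1 : ∑ x ∈ S, #(inc (E.filter fun e => ¬ Disjoint e S) x) ≤ ∑ x ∈ V, #(inc (E.filter fun e => ¬ Disjoint e S) x) :=
    Finset.sum_le_sum_of_subset hS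
  have h2 : ∑ _x ∈ S, 3 ≤ ∑ x ∈ S, #(inc (E.filter fun e => ¬ Disjoint e S) x) := by
    apply Finset.sum_le_sum
    intro x hx
    refine (hd x hx).trans (Finset.card_le_card ?_)
    intro e he
    rw [BFy_mi] at he
    rw [BFy_mi, Finset.mem_filter]
    exact ⟨⟨he.1, fun hdis => Finset.disjoint_left.mp hdis he.2 hx⟩, he.2⟩
  rw [Finset.sum_const, smul_eq_mul, h4S] at h2
  have h3 : #(av E S) + #(E.filter fun e => ¬ Disjoint e S) = #E := by
    unfold av
    exact Finset.card_filter_add_card_filter_not _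
  omega

/-- All degrees are at most three. -/
theorem BFy_three (h1 : ZD_stmt) (h3 : ZP_stmt) (h4 : SD_stmt) {N : ℕ} (hC : SC N) {α : Type} [DecidableEq α] {V : Finset α}
    {E : Finset (Finset α)} {q : ℕ} (hG : Gr V E) (hV : #V = 3 * q + 1) (hN : #V ≤ N + 1) (hE : #E = 3 * q) (hq : 1 ≤ q)
    (hF : Ft V E) {p : α} (hp : #(inc E p) = 3) : 3 ^ q ≤ #(ind V E (q + 1)) := by
  obtain ⟨t, rfl⟩ : ∃ t, q = t + 1 := ⟨q - 1, by omega⟩
  obtain ⟨e₁, e₂, e₃, h12, h13, h23, hinc⟩ := Finset.card_eq_three.mp hp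
  have m₁ : e₁ ∈ inc E p := by rw [hinc]; simp
  have m₂ : e₂ ∈ inc E p := by rw [hinc]; simp
  have m₃ : e₃ ∈ inc E p := by rw [hinc]; simp
  rw [BFy_mi] at m₁ m₂ m₃
  obtain ⟨a, hpa, rfl⟩ := BFy_pair hG m₁.1 m₁.2
  obtain ⟨b, hpb, rfl⟩ := BFy_pair hG m₂.1 m₂.2
  obtain ⟨c, hpc, rfl⟩ := BFy_pair hG m₃.1 m₃.2
  have hab : a ≠ b := by
    rintro rfl
    exact h12 rfl
  have hac : a ≠ c := by
    rintro rfl
    exact h13 rfl
  have hbc : b ≠ c := by
    rintro rfl
    exact h23 rfl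
  have hpV : p ∈ V := (hG _ m₁.1).1 m₁.2
  have hnb : ∀ z, ({p, z} : Finset α) ∈ E → z ∈ V ∧ 3 ≤ #(inc E z) := by
    intro z hz
    have hzV : z ∈ V := (hG _ hz).1 (by simp)
    refine ⟨hzV, ?_⟩
    rcases hF.2 z hzV with h | ⟨w, hw⟩
    · exact h
    · exfalso
      have h5 := hw.2.2 _ hz (Or.inl (by simp))
      have h6 : p ∈ ({z, w} : Finset α) := by rw [← h5]; simp
      rw [Finset.mem_insert, Finset.mem_singleton] at h6
      have := BFy_one hw (z := p) h6
      omega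
  obtain ⟨haV, hda⟩ := hnb a m₁.1
  obtain ⟨hbV, hdb⟩ := hnb b m₂.1
  obtain ⟨hcV, hdc⟩ := hnb c m₃.1
  obtain ⟨S, hS⟩ : ∃ S : Finset α, S = {p, a, b, c} := ⟨_, rfl⟩
  have mS : ∀ x, x ∈ S ↔ x = p ∨ x = a ∨ x = b ∨ x = c := by
    intro x
    rw [hS]
    simp
  have hSV : S ⊆ V := by
    intro x hx
    rw [mS] at hx
    rcases hx with rfl | rfl | rfl | rfl <;> assumption
  have hS4 : #S = 4 := by
    rw [hS, Finset.card_insert_of_notMem, Finset.card_eq_three.mpr ⟨a, b, c, hab, hac, hbc, rfl⟩]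
    simp only [Finset.mem_insert, Finset.mem_singleton, not_or]
    exact ⟨hpa, hpb, hpc⟩
  have hSd : ∀ x ∈ S, 3 ≤ #(inc E x) := by
    intro x hx
    rw [mS] at hx
    rcases hx with rfl | rfl | rfl | rfl
    · omega
    · exact hda
    · exact hdb
    · exact hdc
  have hsix := BFy_six h4 hG hSV hS4 hSd
  have hz := h1 α V E p S (t + 1) hG (by rw [mS]; exact Or.inl rfl) hSV (by
    intro e he hpe
    have : e ∈ inc E p := BFy_mi.mpr ⟨he, hpe⟩
    rw [hinc] at this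
    simp only [Finset.mem_insert, Finset.mem_singleton] at this
    intro x hx
    rw [mS]
    rcases this with rfl | rfl | rfl <;>
    · simp only [Finset.mem_insert, Finset.mem_singleton] at hx
      rcases hx with h | h
      · exact Or.inl h
      · simp [h])
  obtain ⟨a1, a2, a3, a4⟩ := h3 α V E p hG hpV
  have hGS : Gr (V \ S) (av E S) := by
    intro e he
    rw [BFy_ma] at he
    refine ⟨?_, (hG e he.1).2⟩
    intro x hx
    rw [Finset.mem_sdiff]
    exact ⟨(hG e he.1).1 hx, Finset.disjoint_left.mp he.2 hx⟩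
  have hcS : #(V \ S) + 4 = #V := by
    rw [← hS4]
    exact Finset.card_sdiff_add_card_eq_card hSV
  have i1 := hC α (V.erase p) (av E {p}) (t + 1) (t + 1) a1 (by omega) (by omega) (by omega) (by omega)
  have i2 := hC α (V \ S) (av E S) t t hGS (by omega) (by omega) (by omega) (by omega)
  have j1 : 8 * 3 ^ (t + 1) ≤ 9 * #(ind (V.erase p) (av E {p}) (t + 1 + 1)) := by
    apply Nat.le_of_mul_le_mul_left _ (show 0 < 2 ^ (t + 1) by positivity)
    calc 2 ^ (t + 1) * (8 * 3 ^ (t + 1)) = 8 * 3 ^ (t + 1) * 2 ^ (t + 1) := by ring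
      _ ≤ _ := i1
      _ = _ := by ring
  have j2 : 8 * 3 ^ t ≤ 9 * #(ind (V \ S) (av E S) (t + 1)) := by
    apply Nat.le_of_mul_le_mul_left _ (show 0 < 2 ^ t by positivity)
    calc 2 ^ t * (8 * 3 ^ t) = 8 * 3 ^ t * 2 ^ t := by ring
      _ ≤ _ := i2
      _ = _ := by ring
  have e1 : 3 ^ (t + 1) = 3 * 3 ^ t := by ring
  rw [e1] at j1 ⊢
  omega

theorem BF (h1 : ZD_stmt) (h2 : ZK_stmt) (h3 : ZP_stmt) (h4 : SD_stmt) : BF_stmt := by
  intro N hA hC α _ V E q hG hV hN hE hq hF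
  by_cases h4p : ∃ p, 4 ≤ #(inc E p)
  · obtain ⟨p, hp⟩ := h4p
    have hK : ∃ x y, Kt E x y := by
      by_contra hK
      have hs := h4 α V E hG
      have hge : ∑ x ∈ V, 3 ≤ ∑ x ∈ V, #(inc E x) := by
        apply Finset.sum_le_sum
        intro x hx
        rcases hF.2 x hx with h' | ⟨y, hy⟩
        · exact h'
        · exact absurd ⟨x, y, hy⟩ hK
      rw [Finset.sum_const, smul_eq_mul] at hge
      omega
    obtain ⟨x, y, hK⟩ := hK
    exact BFy_four h2 h3 hA hC hG hV hN hE hK hp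
  · obtain ⟨p, hp⟩ := hF.1
    push Not at h4p
    have := h4p p
    exact BFy_three h1 h3 h4 hC hG hV hN hE hq hF (p := p) (by omega)

end Pool.Agent.helper41.CL
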