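import Pool.Agent.helper41.CL.SpecC

/-!
# cl:ED: the case `n = 2 k`
-/

set_option autoImplicit false

namespace Pool.Agent.helper41.CL

open Finset

theorem ED_pick {α : Type} [DecidableEq α] (Q F : Finset α) (h : #F < #Q) : ∃ q ∈ Q, q ∉ F := by
  by_contra hc
  push Not at hc
  have := card_le_card (show Q ⊆ F from hc)
  omega

theorem ED_nb (h2 : NB_stmt) {α : Type} [DecidableEq α] (V : Finset α) (E : Finset (Finset α)) (p a : α) (hG : Gr V E)
    (hp : #(inc E p) = 2) (hpa : ({p, a} : Finset α) ∈ E) (hne : p ≠ a) :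
    ∃ b : α, a ≠ b ∧ p ≠ b ∧ b ∈ V ∧ ({p, b} : Finset α) ∈ E ∧ ∀ e ∈ E, p ∈ e → e = {p, a} ∨ e = {p, b} := by
  obtain ⟨a', b', hab, hpa', hpb', hpV, ha', hb', hE1, hE2, hall⟩ := h2 α V E p hG hp
  have haa : a ∈ ({p, a} : Finset α) := by simp
  rcases hall _ hpa (by simp) with h | h
  · rw [h] at haa
    have h3 : a = a' := by
      rcases mem_insert.1 haa with h4 | h4
      · exact absurd h4.symm hne
      · exact mem_singleton.1 h4
    subst h3
    exact ⟨b', hab, hpb', hb', hE2, hall⟩
  · rw [h] at haa
    have h3 : a = b' := by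
      rcases mem_insert.1 haa with h4 | h4
      · exact absurd h4.symm hne
      · exact mem_singleton.1 h4
    subst h3
    exact ⟨a', fun h5 => hab h5.symm, hpa', ha', hE1, fun e he hpe => (hall e he hpe).symm⟩

theorem ED_two {α : Type} {E : Finset (Finset α)} [DecidableEq α] {x : α} {e f : Finset α} (he : e ∈ E) (hf : f ∈ E)
    (hef : e ≠ f) (hxe : x ∈ e) (hxf : x ∈ f) : 2 ≤ #(inc E x) := by
  have h1 : ({e, f} : Finset (Finset α)) ⊆ inc E x := by
    intro g hg
    rcases mem_insert.1 hg with h | h
    · rw [h]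
      exact mem_filter.2 ⟨he, hxe⟩
    · rw [mem_singleton.1 h]
      exact mem_filter.2 ⟨hf, hxf⟩
  have h2 := card_le_card h1
  rw [card_pair hef] at h2
  exact h2

theorem ED_V {α : Type} [DecidableEq α] {V : Finset α} {E : Finset (Finset α)} (hG : Gr V E) {x : α}
    (h : 1 ≤ #(inc E x)) : x ∈ V := by
  obtain ⟨e, he⟩ := card_pos.1 (show 0 < #(inc E x) by omega)
  exact (hG e (mem_filter.1 he).1).1 (mem_filter.1 he).2

theorem ED_fil {α : Type} [DecidableEq α] {E : Finset (Finset α)} {q a b : α} (hq : #(inc E q) = 2)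
    (h : ∀ e ∈ E, q ∈ e → a ∉ e ∧ b ∉ e) : 2 ≤ #((inc E q).filter fun e => a ∉ e ∧ b ∉ e) := by
  have h1 : (inc E q).filter (fun e => a ∉ e ∧ b ∉ e) = inc E q :=
    filter_true_of_mem fun e he => h e (mem_filter.1 he).1 (mem_filter.1 he).2
  rw [h1, hq]

theorem ED_count {α : Type} [DecidableEq α] (h1 : SD_stmt) (V : Finset α) (E : Finset (Finset α)) (hG : Gr V E)
    (hle : ∀ x, #(inc E x) ≤ 2) : 2 * #E + #(V.filter fun x => #(inc E x) = 0) = #V + #(V.filter fun x => #(inc E x) = 2) := by
  rw [← h1 α V E hG, card_filter, card_filter, card_eq_sum_ones, ← sum_add_distrib, ← sum_add_distrib]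
  refine sum_congr rfl fun x _ => ?_
  have h2 := hle x
  generalize #(inc E x) = d at h2
  interval_cases d <;> simp

theorem ED (h1 : SD_stmt) (h2 : NB_stmt) (h3 : DA_stmt) (h4 : DB_stmt) (h5 : DT_stmt) (h6 : DX_stmt) (h7 : DF_stmt) :
    ED_stmt := by
  intro α _ V E hG hE hV hC
  by_cases hd : ∃ p, 3 ≤ #(inc E p)
  · obtain ⟨p, hp⟩ := hd
    exact h3 α V E p hG hp hV
  have hle : ∀ x, #(inc E x) ≤ 2 := by
    intro x
    by_contra hc
    exact hd ⟨x, by omega⟩
  have hcount := ED_count h1 V E hG hle
  obtain ⟨Q, hQ⟩ : ∃ Q, Q = V.filter fun x => #(inc E x) = 2 := ⟨_, rfl⟩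
  rw [← hQ] at hcount
  have hQm : ∀ x, x ∈ Q ↔ #(inc E x) = 2 := by
    intro x
    rw [hQ, mem_filter]
    exact ⟨fun h => h.2, fun h => ⟨ED_V hG (by omega), h⟩⟩
  have hQ4 : 4 ≤ #Q := by omega
  by_cases hA : ∃ p a, p ≠ a ∧ #(inc E p) = 2 ∧ #(inc E a) = 2 ∧ ({p, a} : Finset α) ∈ E
  · obtain ⟨p, a, hpa, hp, ha, hpaE⟩ := hA
    obtain ⟨b, hab, hpb, hbV, hpbE, hpall⟩ := ED_nb h2 V E p a hG hp hpaE hpa
    have hapE : ({a, p} : Finset α) ∈ E := by
      rw [pair_comm]
      exact hpaE
    obtain ⟨x, hpx, hax, hxV, haxE, haall⟩ := ED_nb h2 V E a p hG ha hapE hpa.symm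
    by_cases hE2 : ({a, b} : Finset α) ∈ E
    · have hb2 : #(inc E b) = 2 := by
        refine le_antisymm (hle b) (ED_two hpbE hE2 ?_ (by simp) (by simp))
        intro h
        have h8 : p ∈ ({a, b} : Finset α) := by
          rw [← h]
          simp
        rcases mem_insert.1 h8 with h9 | h9
        · exact hpa h9
        · exact hpb (mem_singleton.1 h9)
      have hbx : b = x := by
        have h8 : b ∈ ({a, b} : Finset α) := by simp
        rcases haall _ hE2 (by simp) with h | h
        · rw [h] at h8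
          rcases mem_insert.1 h8 with h9 | h9
          · exact absurd h9.symm hab
          · exact absurd (mem_singleton.1 h9).symm hpb
        · rw [h] at h8
          rcases mem_insert.1 h8 with h9 | h9
          · exact absurd h9.symm hab
          · exact mem_singleton.1 h9
      have hbpE : ({b, p} : Finset α) ∈ E := by
        rw [pair_comm]
        exact hpbE
      have hbaE : ({b, a} : Finset α) ∈ E := by
        rw [pair_comm]
        exact hE2
      obtain ⟨c, hpc, hbc, _, hbcE, hball⟩ := ED_nb h2 V E b p hG hb2 hbpE hpb.symm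
      have hca : a = c := by
        have h8 : a ∈ ({b, a} : Finset α) := by simp
        rcases hball _ hbaE (by simp) with h | h
        · rw [h] at h8
          rcases mem_insert.1 h8 with h9 | h9
          · exact absurd h9 hab
          · exact absurd (mem_singleton.1 h9).symm hpa
        · rw [h] at h8
          rcases mem_insert.1 h8 with h9 | h9
          · exact absurd h9 hab
          · exact mem_singleton.1 h9
      obtain ⟨q, hqQ, hqn⟩ := ED_pick Q {p, a, b} (lt_of_le_of_lt card_le_three (by omega))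
      have hqp : q ≠ p := fun h => hqn (by simp [h])
      have hqa : q ≠ a := fun h => hqn (by simp [h])
      have hqb : q ≠ b := fun h => hqn (by simp [h])
      have hq2 := (hQm q).1 hqQ
      have hqe : ∀ e ∈ E, q ∈ e → p ∉ e ∧ a ∉ e ∧ b ∉ e := by
        intro e he hqe
        refine ⟨fun hpe => ?_, fun hae => ?_, fun hbe => ?_⟩
        · rcases hpall e he hpe with h | h
          · rw [h] at hqe
            simp [hqp, hqa] at hqe
          · rw [h] at hqe
            simp [hqp, hqb] at hqe
        · rcases haall e he hae with h | h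
          · rw [h] at hqe
            simp [hqp, hqa] at hqe
          · rw [h, ← hbx] at hqe
            simp [hqa, hqb] at hqe
        · rcases hball e he hbe with h | h
          · rw [h] at hqe
            simp [hqp, hqb] at hqe
          · rw [h, ← hca] at hqe
            simp [hqa, hqb] at hqe
      by_cases hs : ∃ y ∈ V, #(inc E y) = 0
      · obtain ⟨y, hyV, hy0⟩ := hs
        refine h5 α V E p a b q y hG hE hV hab hpa hpb hpaE hpbE hpall ha.ge hqp hqa hqb
          (ED_fil hq2 fun e he hqe' => (hqe e he hqe').2) hyV ?_ ?_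
        · intro h
          rw [h] at hy0
          omega
        · intro e he hye
          have h8 : e ∈ inc E y := mem_filter.2 ⟨he, hye⟩
          rw [card_eq_zero.1 hy0] at h8
          exact absurd h8 (notMem_empty _)
      · exfalso
        have hs0 : #(V.filter fun x => #(inc E x) = 0) = 0 := by
          rw [card_eq_zero, filter_eq_empty_iff]
          intro y hy hy0
          exact hs ⟨y, hy, hy0⟩
        rw [hs0] at hcount
        have hQc : #Q = 4 := by omega
        have hsub : ({p, a, b, q} : Finset α) ⊆ Q := by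
          intro z hz
          rw [hQm]
          simp only [mem_insert, mem_singleton] at hz
          rcases hz with h | h | h | h
          · rw [h]; exact hp
          · rw [h]; exact ha
          · rw [h]; exact hb2
          · rw [h]; exact hq2
        have hcard : #({p, a, b, q} : Finset α) = 4 := by
          rw [card_insert_of_notMem, card_insert_of_notMem, card_pair hqb.symm]
          · simp [hab, hqa.symm]
          · simp [hpa, hpb, hqp.symm]
        have hQeq : ({p, a, b, q} : Finset α) = Q := eq_of_subset_of_card_le hsub (by omega)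
        obtain ⟨u, u', huu, hqu, hqu', hqV, huV, _, hquE, _, _⟩ := h2 α V E q hG hq2
        have h8 := hqe _ hquE (by simp)
        have hup : u ≠ p := fun h => h8.1 (by simp [h])
        have hua : u ≠ a := fun h => h8.2.1 (by simp [h])
        have hub : u ≠ b := fun h => h8.2.2 (by simp [h])
        obtain ⟨C, hCc, huC⟩ := hC u huV
        unfold cov at hCc
        rw [mem_filter, mem_powersetCard] at hCc
        refine h6 α V E p a b q u C hG hab hpa hpb hqp hqa hqb hqu hup hua hub hpaE hpbE hE2 hquE hle ?_ hCc.2 ?_ huC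
        · intro z hz
          have h9 := (hQm z).2 hz
          rw [← hQeq] at h9
          simpa using h9
        · rw [hCc.1.2]
          omega
    · by_cases hb2 : #(inc E b) = 2
      · obtain ⟨q, hqQ, hqn⟩ := ED_pick Q {p, a, b} (lt_of_le_of_lt card_le_three (by omega))
        have hqp : q ≠ p := fun h => hqn (by simp [h])
        have hqa : q ≠ a := fun h => hqn (by simp [h])
        have hqb : q ≠ b := fun h => hqn (by simp [h])
        exact h4 α V E p a b q hG hV hab hpa hpb hpaE hpbE hpall ha.ge hb2.ge hE2 hqp hqa hqb ((hQm q).1 hqQ).ge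
      have hpxE : ({p, x} : Finset α) ∉ E := by
        intro hE3
        have h8 : x ∈ ({p, x} : Finset α) := by simp
        rcases hpall _ hE3 (by simp) with h | h
        · rw [h] at h8
          simp [hpx.symm, hax.symm] at h8
        · rw [h] at h8
          have h9 : x = b := by simpa [hpx.symm] using h8
          rw [h9] at haxE
          exact hE2 haxE
      by_cases hx2 : #(inc E x) = 2
      · obtain ⟨q, hqQ, hqn⟩ := ED_pick Q {a, p, x} (lt_of_le_of_lt card_le_three (by omega))
        have hqp : q ≠ p := fun h => hqn (by simp [h])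
        have hqa : q ≠ a := fun h => hqn (by simp [h])
        have hqx : q ≠ x := fun h => hqn (by simp [h])
        exact h4 α V E a p x q hG hV hpx hpa.symm hax hapE haxE haall hp.ge hx2.ge hpxE hqa hqp hqx ((hQm q).1 hqQ).ge
      have hb1 : #(inc E b) ≤ 1 := by
        have := hle b
        omega
      have hbe : ∀ e ∈ E, b ∈ e → e = {p, b} := by
        intro e he hbe
        exact card_le_one.1 hb1 e (mem_filter.2 ⟨he, hbe⟩) {p, b} (mem_filter.2 ⟨hpbE, by simp⟩)
      obtain ⟨q, hqQ, hqn⟩ := ED_pick Q {p, a} (lt_of_le_of_lt card_le_two (by omega))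
      have hqp : q ≠ p := fun h => hqn (by simp [h])
      have hqa : q ≠ a := fun h => hqn (by simp [h])
      have hq2 := (hQm q).1 hqQ
      have hqb : q ≠ b := fun h => hb2 (by rw [← h]; exact hq2)
      have hqx : q ≠ x := fun h => hx2 (by rw [← h]; exact hq2)
      refine h5 α V E p a b q b hG hE hV hab hpa hpb hpaE hpbE hpall ha.ge hqp hqa hqb (ED_fil hq2 ?_) hbV hpb.symm ?_
      · intro e he hqe
        refine ⟨fun hae => ?_, fun hbe' => ?_⟩
        · rcases haall e he hae with h | h
          · rw [h] at hqe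
            simp [hqp, hqa] at hqe
          · rw [h] at hqe
            simp [hqa, hqx] at hqe
        · rw [hbe e he hbe'] at hqe
          simp [hqp, hqb] at hqe
      · intro e he hbe'
        rw [hbe e he hbe']
        simp
  · have hno : ∀ x y, x ≠ y → #(inc E x) = 2 → #(inc E y) = 2 → ({x, y} : Finset α) ∉ E :=
      fun x y hxy hx hy hm => hA ⟨x, y, hxy, hx, hy, hm⟩
    obtain ⟨p, hpQ, _⟩ := ED_pick Q ∅ (by rw [card_empty]; omega)
    obtain ⟨q₁, hq1Q, hq1⟩ := ED_pick Q {p} (by rw [card_singleton]; omega)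
    obtain ⟨q₂, hq2Q, hq2⟩ := ED_pick Q {p, q₁} (lt_of_le_of_lt card_le_two (by omega))
    obtain ⟨q₃, hq3Q, hq3⟩ := ED_pick Q {p, q₁, q₂} (lt_of_le_of_lt card_le_three (by omega))
    rw [hQm] at hpQ hq1Q hq2Q hq3Q
    have e1 : p ≠ q₁ := fun h => hq1 (by simp [h])
    have e2 : p ≠ q₂ := fun h => hq2 (by simp [h])
    have e3 : p ≠ q₃ := fun h => hq3 (by simp [h])
    have e4 : q₁ ≠ q₂ := fun h => hq2 (by simp [h])
    have e5 : q₁ ≠ q₃ := fun h => hq3 (by simp [h])
    have e6 : q₂ ≠ q₃ := fun h => hq3 (by simp [h])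
    exact h7 α V E p q₁ q₂ q₃ hG hV e1 e2 e3 e4 e5 e6 hpQ hq1Q hq2Q hq3Q (hno _ _ e1 hpQ hq1Q) (hno _ _ e2 hpQ hq2Q)
      (hno _ _ e3 hpQ hq3Q) (hno _ _ e4 hq1Q hq2Q) (hno _ _ e5 hq1Q hq3Q) (hno _ _ e6 hq2Q hq3Q)

end Pool.Agent.helper41.CL
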