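import Pool.Agent.helper47.CL.SpecD

/-!
Row NQ of project CL (part D, MP_d9d598_co).
-/

set_option autoImplicit false

namespace Pool.Agent.helper41.CL

open Finset

theorem NQ_num (r : ℕ) (hr : 2 ≤ r) : 8 ^ r ≤ 2 * 3 ^ r * (3 * r - 2).choose r := by
  induction r, hr using Nat.le_induction with
  | base => decide
  | succ r hr ih =>
    obtain ⟨m, hm⟩ : ∃ m, m = 3 * r - 2 := ⟨_, rfl⟩
    have e1 : 3 * (r + 1) - 2 = m + 1 + 1 + 1 := by omega
    rw [e1, Nat.choose_succ_succ, Nat.choose_succ_succ (m + 1), Nat.choose_succ_succ m r]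
    rw [← hm] at ih
    have a1 : m.choose r ≤ (m + 1 + 1).choose r := Nat.choose_le_choose r (by omega)
    have a2 : m.choose r ≤ (m + 1).choose r := Nat.choose_le_choose r (by omega)
    have a3 : 3 * m.choose r ≤ (m + 1 + 1).choose r + ((m + 1).choose r + (m.choose r + m.choose (r + 1))) := by omega
    calc 8 ^ (r + 1) = 8 * 8 ^ r := by ring
      _ ≤ 9 * 8 ^ r := by omega
      _ ≤ 9 * (2 * 3 ^ r * m.choose r) := Nat.mul_le_mul_left 9 ih
      _ = 2 * 3 ^ (r + 1) * (3 * m.choose r) := by ring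
      _ ≤ _ := Nat.mul_le_mul_left _ a3

theorem NQ_pair {α : Type} [DecidableEq α] {V : Finset α} {E : Finset (Finset α)} (hG : Gr V E) {e : Finset α} (he : e ∈ E)
    {p : α} (hp : p ∈ e) : ∃ a, p ≠ a ∧ e = {p, a} := by
  obtain ⟨x, y, hxy, rfl⟩ := Finset.card_eq_two.mp (hG e he).2
  rw [Finset.mem_insert, Finset.mem_singleton] at hp
  rcases hp with rfl | rfl
  · exact ⟨y, hxy, rfl⟩
  · exact ⟨x, hxy.symm, Finset.pair_comm _ _⟩

theorem NQ_mi {α : Type} [DecidableEq α] {E : Finset (Finset α)} {p : α} {e : Finset α} : e ∈ inc E p ↔ e ∈ E ∧ p ∈ e := by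
  unfold inc
  exact Finset.mem_filter

theorem NQ_tw {α : Type} [DecidableEq α] {V : Finset α} {E : Finset (Finset α)} (hG : Gr V E) {p : α}
    (hp : #(inc E p) = 2) : ∃ a b, Tw E p a b := by
  obtain ⟨e, f, hef, hh⟩ := Finset.card_eq_two.mp hp
  have he : e ∈ inc E p := by rw [hh]; exact Finset.mem_insert_self _ _
  have hf : f ∈ inc E p := by rw [hh]; exact Finset.mem_insert_of_mem (Finset.mem_singleton_self _)
  rw [NQ_mi] at he hf
  obtain ⟨a, hpa, rfl⟩ := NQ_pair hG he.1 he.2
  obtain ⟨b, hpb, rfl⟩ := NQ_pair hG hf.1 hf.2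
  refine ⟨a, b, ?_, hpa, hpb, he.1, hf.1, ?_⟩
  · rintro rfl
    exact hef rfl
  · intro g hg hpg
    have : g ∈ inc E p := NQ_mi.mpr ⟨hg, hpg⟩
    rw [hh, Finset.mem_insert, Finset.mem_singleton] at this
    exact this

theorem NQ_twdeg {α : Type} [DecidableEq α] {E : Finset (Finset α)} {p a b : α} (h : Tw E p a b) : #(inc E p) = 2 := by
  obtain ⟨hab, hpa, hpb, h1, h2, h3⟩ := h
  have hne : ({p, a} : Finset α) ≠ {p, b} := by
    intro h
    have : a ∈ ({p, b} : Finset α) := by rw [← h]; exact Finset.mem_insert_of_mem (Finset.mem_singleton_self _)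
    rw [Finset.mem_insert, Finset.mem_singleton] at this
    rcases this with h | h
    · exact hpa h.symm
    · exact hab h
  rw [Finset.card_eq_two]
  refine ⟨{p, a}, {p, b}, hne, ?_⟩
  ext g
  rw [NQ_mi, Finset.mem_insert, Finset.mem_singleton]
  constructor
  · rintro ⟨hg, hpg⟩
    exact h3 g hg hpg
  · rintro (rfl | rfl)
    · exact ⟨h1, Finset.mem_insert_self _ _⟩
    · exact ⟨h2, Finset.mem_insert_self _ _⟩

theorem NQ_one {α : Type} [DecidableEq α] {E : Finset (Finset α)} {x : α} (h : #(inc E x) = 1) {e f : Finset α}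
    (he : e ∈ E) (hx : x ∈ e) (hf : f ∈ E) (hx' : x ∈ f) : e = f := by
  obtain ⟨g, hg⟩ := Finset.card_eq_one.mp h
  have h1 : e ∈ inc E x := NQ_mi.mpr ⟨he, hx⟩
  have h2 : f ∈ inc E x := NQ_mi.mpr ⟨hf, hx'⟩
  rw [hg, Finset.mem_singleton] at h1 h2
  rw [h1, h2]

theorem NQ_base (h1 : NP_stmt) (h3 : SD_stmt) {α : Type} [DecidableEq α] {V : Finset α} {E : Finset (Finset α)} {q r : ℕ}
    (hG : Gr V E) (hV : #V = 2 * q + r) (hE : #E + 1 = q + 2 * r) (hr : 2 ≤ r) (hd : ∀ x, #(inc E x) ≤ 2)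
    (hT : ∀ p a b, Tw E p a b → #(inc E a) = 1 ∧ #(inc E b) = 1) (hI : ∀ x ∈ V, 1 ≤ #(inc E x)) :
    4 * 3 ^ r * 2 ^ q ≤ 9 * 2 ^ r * #(ind V E (q + 1)) := by
  have hs := h3 α V E hG
  have hV1 : ∀ x, 1 ≤ #(inc E x) → x ∈ V := by
    intro x hx
    obtain ⟨e, he⟩ := Finset.card_pos.mp hx
    rw [NQ_mi] at he
    exact (hG e he.1).1 he.2
  have hA : ∀ x, x ∈ V.filter (fun x => #(inc E x) = 2) ↔ #(inc E x) = 2 := by
    intro x
    rw [Finset.mem_filter]
    constructor
    · exact fun h => h.2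
    · exact fun h => ⟨hV1 x (by omega), h⟩
  have hsum : ∑ x ∈ V, #(inc E x) = #V + #(V.filter (fun x => #(inc E x) = 2)) := by
    rw [Finset.card_filter, Finset.card_eq_sum_ones, ← Finset.sum_add_distrib]
    apply Finset.sum_congr rfl
    intro x hx
    have b1 := hI x hx
    have b2 := hd x
    by_cases h : #(inc E x) = 2
    · rw [if_pos h, h]
    · rw [if_neg h]
      omega
  have hAc : #(V.filter (fun x => #(inc E x) = 2)) = 3 * r - 2 := by omega
  obtain ⟨c1, c2, c3⟩ := h1 α V (V.filter (fun x => #(inc E x) = 2)) E r hG hd hT hA (by omega)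
  rw [hAc] at c2 c3
  obtain ⟨t, ht⟩ : ∃ t, q = t + 4 * r - 3 := ⟨q - (4 * r - 3), by omega⟩
  have e1 : #V - #E + r = q + 1 := by omega
  have e2 : #E - 2 * (3 * r - 2) = t := by omega
  have e3 : 3 * r - 2 - r = 2 * r - 2 := by omega
  rw [e1, e2, e3] at c3
  have hn := NQ_num r hr
  have e4 : 9 * 3 ^ (2 * r - 2) = 3 ^ r * 3 ^ r := by
    have : (9 : ℕ) = 3 ^ 2 := by norm_num
    rw [this, ← pow_add, ← pow_add]
    congr 1
    omega
  have e5 : 4 * 2 ^ q * 2 = 2 ^ r * 2 ^ t * 8 ^ r := by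
    have : (8 : ℕ) ^ r = 2 ^ (3 * r) := by rw [pow_mul]; norm_num
    rw [this, ← pow_add, ← pow_add]
    have h8 : 4 * 2 ^ q * 2 = 2 ^ (q + 3) := by ring
    rw [h8]
    congr 1
    omega
  have h2 : 2 * (4 * 3 ^ r * 2 ^ q) ≤ 2 * (9 * 2 ^ r * #(ind V E (q + 1))) := by
    calc 2 * (4 * 3 ^ r * 2 ^ q) = 3 ^ r * (4 * 2 ^ q * 2) := by ring
      _ = 3 ^ r * (2 ^ r * 2 ^ t) * 8 ^ r := by rw [e5]; ring
      _ ≤ 3 ^ r * (2 ^ r * 2 ^ t) * (2 * 3 ^ r * (3 * r - 2).choose r) := Nat.mul_le_mul_left _ hn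
      _ = 2 * (2 ^ r * ((3 * r - 2).choose r * (3 ^ r * 3 ^ r) * 2 ^ t)) := by ring
      _ = 2 * (9 * 2 ^ r * ((3 * r - 2).choose r * 3 ^ (2 * r - 2) * 2 ^ t)) := by rw [← e4]; ring
      _ ≤ 2 * (9 * 2 ^ r * #(ind V E (q + 1))) := Nat.mul_le_mul_left _ (Nat.mul_le_mul_left _ c3)
  omega

/-- Degrees after the change of an end of a path with three vertices. -/
theorem NQ_new {α : Type} [DecidableEq α] {V : Finset α} {E : Finset (Finset α)} (_hG : Gr V E) {p a b y : α} (h : Tw E p a b)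
    (ha : #(inc E a) = 1) (hy : ∀ e ∈ E, y ∉ e) :
    #(inc (insert {y, a} (E.erase {p, a})) y) = 1 ∧ #(inc (insert {y, a} (E.erase {p, a})) a) = 1 ∧
    #(inc (insert {y, a} (E.erase {p, a})) p) = 1 ∧
    ∀ x, x ≠ y → x ≠ a → x ≠ p → inc (insert {y, a} (E.erase {p, a})) x = inc E x := by
  obtain ⟨hab, hpa, hpb, k1, k2, k3⟩ := h
  have hyp : y ≠ p := by
    rintro rfl
    exact hy _ k1 (Finset.mem_insert_self _ _)
  have hya : y ≠ a := by
    rintro rfl
    exact hy _ k1 (Finset.mem_insert_of_mem (Finset.mem_singleton_self _))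
  refine ⟨?_, ?_, ?_, ?_⟩
  · rw [Finset.card_eq_one]
    refine ⟨{y, a}, ?_⟩
    ext g
    rw [NQ_mi, Finset.mem_insert, Finset.mem_erase, Finset.mem_singleton]
    constructor
    · rintro ⟨hg | hg, hyg⟩
      · exact hg
      · exact absurd hyg (hy g hg.2)
    · rintro rfl
      exact ⟨Or.inl rfl, Finset.mem_insert_self _ _⟩
  · rw [Finset.card_eq_one]
    refine ⟨{y, a}, ?_⟩
    ext g
    rw [NQ_mi, Finset.mem_insert, Finset.mem_erase, Finset.mem_singleton]
    constructor
    · rintro ⟨hg | hg, hag⟩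
      · exact hg
      · exact absurd (NQ_one ha hg.2 hag k1 (Finset.mem_insert_of_mem (Finset.mem_singleton_self _))) hg.1
    · rintro rfl
      exact ⟨Or.inl rfl, Finset.mem_insert_of_mem (Finset.mem_singleton_self _)⟩
  · rw [Finset.card_eq_one]
    refine ⟨{p, b}, ?_⟩
    ext g
    rw [NQ_mi, Finset.mem_insert, Finset.mem_erase, Finset.mem_singleton]
    constructor
    · rintro ⟨hg | hg, hpg⟩
      · exfalso
        rw [hg, Finset.mem_insert, Finset.mem_singleton] at hpg
        rcases hpg with h | h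
        · exact hyp h.symm
        · exact hpa h
      · rcases k3 g hg.2 hpg with h | h
        · exact absurd h hg.1
        · exact h
    · rintro rfl
      refine ⟨Or.inr ⟨?_, k2⟩, Finset.mem_insert_self _ _⟩
      intro h
      have : a ∈ ({p, b} : Finset α) := by rw [h]; exact Finset.mem_insert_of_mem (Finset.mem_singleton_self _)
      rw [Finset.mem_insert, Finset.mem_singleton] at this
      rcases this with h | h
      · exact hpa h.symm
      · exact hab h
  · intro x hxy hxa hxp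
    ext g
    rw [NQ_mi, NQ_mi, Finset.mem_insert, Finset.mem_erase]
    constructor
    · rintro ⟨hg | hg, hxg⟩
      · exfalso
        rw [hg, Finset.mem_insert, Finset.mem_singleton] at hxg
        rcases hxg with h | h
        · exact hxy h
        · exact hxa h
      · exact ⟨hg.2, hxg⟩
    · rintro ⟨hg, hxg⟩
      refine ⟨Or.inr ⟨?_, hg⟩, hxg⟩
      rintro rfl
      rw [Finset.mem_insert, Finset.mem_singleton] at hxg
      rcases hxg with h | h
      · exact hxp h
      · exact hxa h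

theorem NQ_all (h1 : NP_stmt) (h2 : ZH_stmt) (h3 : SD_stmt) {α : Type} [DecidableEq α] {V : Finset α} {q r : ℕ}
    (hV : #V = 2 * q + r) (hr : 2 ≤ r) (n : ℕ) : ∀ E : Finset (Finset α), #(V.filter fun x => inc E x = ∅) ≤ n →
    Gr V E → #E + 1 = q + 2 * r → (∀ x, #(inc E x) ≤ 2) →
    (∀ p a b, Tw E p a b → #(inc E a) = 1 ∧ #(inc E b) = 1) → 4 * 3 ^ r * 2 ^ q ≤ 9 * 2 ^ r * #(ind V E (q + 1)) := by
  induction n with
  | zero =>
    intro E hn hG hE hd hT
    refine NQ_base h1 h3 hG hV hE hr hd hT ?_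
    intro x hx
    rw [Nat.one_le_iff_ne_zero, Ne, Finset.card_eq_zero]
    intro h0
    have : x ∈ V.filter fun x => inc E x = ∅ := Finset.mem_filter.mpr ⟨hx, h0⟩
    have := Finset.card_pos.mpr ⟨x, this⟩
    omega
  | succ n ih =>
    intro E hn hG hE hd hT
    by_cases hI : ∀ x ∈ V, 1 ≤ #(inc E x)
    · exact NQ_base h1 h3 hG hV hE hr hd hT hI
    push Not at hI
    obtain ⟨y, hyV, hy0⟩ := hI
    have hy1 : inc E y = ∅ := by
      rw [← Finset.card_eq_zero]
      omega
    have hy : ∀ e ∈ E, y ∉ e := by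
      intro e he hye
      have : e ∈ inc E y := NQ_mi.mpr ⟨he, hye⟩
      rw [hy1] at this
      exact absurd this (Finset.notMem_empty _)
    obtain ⟨p, hp⟩ : ∃ p, #(inc E p) = 2 := by
      by_contra hcon
      push Not at hcon
      have hs := h3 α V E hG
      have : ∑ x ∈ V, #(inc E x) ≤ ∑ x ∈ V, 1 := by
        apply Finset.sum_le_sum
        intro x _
        have b1 := hd x
        have b2 := hcon x
        omega
      rw [← Finset.card_eq_sum_ones] at this
      omega
    obtain ⟨a, b, hTw⟩ := NQ_tw hG hp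
    obtain ⟨hda, hdb⟩ := hT p a b hTw
    have hTw' := hTw
    obtain ⟨hab, hpa, hpb, k1, k2, k3⟩ := hTw'
    obtain ⟨g1, g2, g3⟩ := h2 α V E p a y hG k1 hpa hyV hy
    obtain ⟨d1, d2, d3, d4⟩ := NQ_new hG hTw hda hy
    refine le_trans (ih (insert {y, a} (E.erase {p, a})) ?_ g1 (by rw [g2]; exact hE) ?_ ?_) (Nat.mul_le_mul_left _ (g3 (q + 1)))
    · have hsub : (V.filter fun x => inc (insert {y, a} (E.erase {p, a})) x = ∅) ⊆ (V.filter fun x => inc E x = ∅).erase y := by
        intro x hx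
        rw [Finset.mem_filter] at hx
        have hxy : x ≠ y := by
          rintro rfl
          rw [hx.2] at d1
          simp at d1
        have hxa : x ≠ a := by
          rintro rfl
          rw [hx.2] at d2
          simp at d2
        have hxp : x ≠ p := by
          rintro rfl
          rw [hx.2] at d3
          simp at d3
        rw [Finset.mem_erase, Finset.mem_filter]
        refine ⟨hxy, hx.1, ?_⟩
        rw [← d4 x hxy hxa hxp]
        exact hx.2
      have hmem : y ∈ V.filter fun x => inc E x = ∅ := Finset.mem_filter.mpr ⟨hyV, hy1⟩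
      have c1 := Finset.card_le_card hsub
      rw [Finset.card_erase_of_mem hmem] at c1
      omega
    · intro x
      by_cases hxy : x = y
      · rw [hxy, d1]; norm_num
      by_cases hxa : x = a
      · rw [hxa, d2]; norm_num
      by_cases hxp : x = p
      · rw [hxp, d3]; norm_num
      rw [d4 x hxy hxa hxp]
      exact hd x
    · intro p' a' b' hT'
      have hp2 := NQ_twdeg hT'
      have hxy : p' ≠ y := by
        rintro rfl
        omega
      have hxa : p' ≠ a := by
        rintro rfl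
        omega
      have hxp : p' ≠ p := by
        rintro rfl
        omega
      have hinc := d4 p' hxy hxa hxp
      rw [hinc] at hp2
      obtain ⟨l1, l2, l3, l4, l5, l6⟩ := hT'
      have m4 : ({p', a'} : Finset α) ∈ E := by
        have : ({p', a'} : Finset α) ∈ inc E p' := by
          rw [← hinc]
          exact NQ_mi.mpr ⟨l4, Finset.mem_insert_self _ _⟩
        exact (NQ_mi.mp this).1
      have m5 : ({p', b'} : Finset α) ∈ E := by
        have : ({p', b'} : Finset α) ∈ inc E p' := by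
          rw [← hinc]
          exact NQ_mi.mpr ⟨l5, Finset.mem_insert_self _ _⟩
        exact (NQ_mi.mp this).1
      have hT2 : Tw E p' a' b' := by
        refine ⟨l1, l2, l3, m4, m5, ?_⟩
        intro e he hpe
        have : e ∈ inc E p' := NQ_mi.mpr ⟨he, hpe⟩
        rw [← hinc, NQ_mi] at this
        exact l6 e this.1 this.2
      obtain ⟨n1, n2⟩ := hT p' a' b' hT2
      have key : ∀ c, #(inc E c) = 1 → ({p', c} : Finset α) ∈ E → #(inc (insert {y, a} (E.erase {p, a})) c) = 1 := by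
        intro c hc hpc
        have hcy : c ≠ y := by
          rintro rfl
          exact hy _ hpc (Finset.mem_insert_of_mem (Finset.mem_singleton_self _))
        by_cases hca : c = a
        · rw [hca]; exact d2
        by_cases hcp : c = p
        · rw [hcp]; exact d3
        rw [d4 c hcy hca hcp]
        exact hc
      exact ⟨key a' n1 m4, key b' n2 m5⟩

theorem NQ (h1 : NP_stmt) (h2 : ZH_stmt) (h3 : SD_stmt) : NQ_stmt := by
  intro α _ V E q r hG hV hE hr hd hT
  exact NQ_all h1 h2 h3 hV hr _ E le_rfl hG hE hd hT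

end Pool.Agent.helper41.CL
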